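import Pool.Agent.Helper37.OF.St

/-!
# Project OF (MP_121524_al): module COR
-/

set_option autoImplicit false

namespace Pool.Agent.Helper54.OF

open Pool.Agent.Helper37.OF Monoid Pool.Agent.Helper4.FS

universe u v w x

theorem exists_ne_one (k : Type w) [Field k] : ∃ τ : P2 k, τ ≠ 1 := by
  refine ⟨Matrix.ProjGenLinGroup.mk (uu (1 : k)), fun h => ?_⟩
  have h1 : uu (1 : k) ∈ Subgroup.center (G2 k) := Matrix.ProjGenLinGroup.mk_eq_one.1 h
  have h2 := ((mem_cen _).1 h1).1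
  simp [uu] at h2

theorem hCOR (hLOC : StLOC.{w, x}) (hSECA : StSEC.{u, x}) (hSECB : StSEC.{v, x})
    (hACT : StACT.{u, v, w, x}) (hSTR : StSTR.{u, v, w, x}) (hORD : StORD.{w, x}) :
    StCOR.{u, v, w, x} := by
  intro A B Q _ _ _ _ hord k _ m hm πA πB f g l hl hl1 hGA hGB
  obtain ⟨τ, hτ⟩ := exists_ne_one k
  obtain ⟨s, hs⟩ := hSECA A Q πA
  obtain ⟨s', hs'⟩ := hSECB B Q πB
  obtain ⟨S, hS, hR⟩ := hSTR A B Q (P2 k) πA πB f g s s' hs hs' τ hτ l hl hl1 hGA hGB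
  set R : Q → Fp (P2 k) (Option Q) := fun q => Wq τ (bl πA πB f g s s' l q) with hRdef
  have hLF : ∀ q, ∀ c ∈ S, LF (R q) m (some (c * q)) := fun q c hc =>
    hLOC k (Option Q) (R q) (some (c * q)) m hm ((hR q).2 c hc)
  have hinj := hORD Q hord (P2 k) m S R hS (fun q => (hR q).1) hLF
  set N : Subgroup (Fp (P2 k) (Option Q)) :=
    Subgroup.normalClosure (Set.range fun q => R q ^ m) with hN
  have hjj : ∀ c : P2 k, (QuotientGroup.mk' N) (ofi none c) = 1 → c = 1 := by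
    intro c hc
    exact hinj c ((QuotientGroup.eq_one_iff _).1 hc)
  obtain ⟨Φ, h1, h2, h3⟩ := hACT A B Q (P2 k) (Fp (P2 k) (Option Q) ⧸ N) πA πB f g s s' hs hs' τ
    (QuotientGroup.mk' N)
  refine ⟨Equiv.Perm ((Fp (P2 k) (Option Q) ⧸ N) × Q), inferInstance, Φ, ?_, ?_, ?_, ?_, ?_⟩
  · -- the relator
    have h4 : ∀ (n : ℕ) y q, (Φ (wd l) ^ n) (y, q) = ((QuotientGroup.mk' N) (R q) ^ n * y, q) := by
      intro n
      induction n with
      | zero => intro y q; simp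
      | succ n ih =>
        intro y q
        rw [pow_succ, Equiv.Perm.mul_apply, h3, hl1, one_mul, ih, pow_succ, mul_assoc]
    ext p : 1
    obtain ⟨y, q⟩ := p
    rw [h4 m y q, ← map_pow]
    have h5 : (QuotientGroup.mk' N) (R q ^ m) = 1 :=
      (QuotientGroup.eq_one_iff _).2 (Subgroup.subset_normalClosure ⟨q, rfl⟩)
    rw [h5, one_mul]
    rfl
  · intro a ha h
    have h4 := h1 a 1 1
    rw [h] at h4
    have h5 := congrArg Prod.snd h4
    simp only [Equiv.Perm.one_apply, mul_one] at h5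
    exact ha h5.symm
  · intro b hb h
    have h4 := h2 b 1 1
    rw [h] at h4
    have h5 := congrArg Prod.snd h4
    simp only [Equiv.Perm.one_apply, mul_one] at h5
    exact hb h5.symm
  · intro a ha h
    obtain ⟨q₀, hq₀⟩ := hs.2
    have hπ : πA (a : A) = 1 := a.2
    have h4 := h1 (a : A) 1 q₀
    rw [h] at h4
    have h5 := congrArg Prod.fst h4
    simp only [Equiv.Perm.one_apply, mul_one] at h5
    have h6 := hjj _ h5.symm
    have hmem : (s (πA (a : A) * q₀))⁻¹ * (a : A) * s q₀ ∈ πA.ker := by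
      rw [MonoidHom.mem_ker, map_mul, map_mul, map_inv, hπ, one_mul, hq₀]
      simp
    have h7 : cc πA f s (a : A) q₀ = f ⟨_, hmem⟩ := by
      unfold cc
      rw [dif_pos hmem]
    rw [h7] at h6
    have hsk : s q₀ ∈ πA.ker := hq₀
    have h8 : (⟨(s (πA (a : A) * q₀))⁻¹ * (a : A) * s q₀, hmem⟩ : πA.ker) =
        (⟨s q₀, hsk⟩ : πA.ker)⁻¹ * a * ⟨s q₀, hsk⟩ := by
      apply Subtype.ext
      simp [hπ]
    rw [h8, map_mul, map_mul, map_inv] at h6
    apply ha
    have h9 := congrArg (fun t => f ⟨s q₀, hsk⟩ * t * (f ⟨s q₀, hsk⟩)⁻¹) h6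
    simpa [mul_assoc] using h9
  · intro b hb h
    obtain ⟨q₀, hq₀⟩ := hs'.2
    have hπ : πB (b : B) = 1 := b.2
    have h4 := h2 (b : B) 1 q₀
    rw [h] at h4
    have h5 := congrArg Prod.fst h4
    simp only [Equiv.Perm.one_apply, mul_one] at h5
    rw [hπ, one_mul, map_mul, map_mul, map_inv] at h5
    have h5' : (QuotientGroup.mk' N) (ofi none (cc πB g s' (b : B) q₀)) = 1 := by
      have h9 := congrArg (fun t => ((QuotientGroup.mk' N) (ofi (some q₀) τ))⁻¹ * t *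
        (QuotientGroup.mk' N) (ofi (some q₀) τ)) h5
      simpa [mul_assoc] using h9.symm
    have h6 := hjj _ h5'
    have hmem : (s' (πB (b : B) * q₀))⁻¹ * (b : B) * s' q₀ ∈ πB.ker := by
      rw [MonoidHom.mem_ker, map_mul, map_mul, map_inv, hπ, one_mul, hq₀]
      simp
    have h7 : cc πB g s' (b : B) q₀ = g ⟨_, hmem⟩ := by
      unfold cc
      rw [dif_pos hmem]
    rw [h7] at h6
    have hsk : s' q₀ ∈ πB.ker := hq₀
    have h8 : (⟨(s' (πB (b : B) * q₀))⁻¹ * (b : B) * s' q₀, hmem⟩ : πB.ker) =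
        (⟨s' q₀, hsk⟩ : πB.ker)⁻¹ * b * ⟨s' q₀, hsk⟩ := by
      apply Subtype.ext
      simp [hπ]
    rw [h8, map_mul, map_mul, map_inv] at h6
    apply hb
    have h9 := congrArg (fun t => g ⟨s' q₀, hsk⟩ * t * (g ⟨s' q₀, hsk⟩)⁻¹) h6
    simpa [mul_assoc] using h9

end Pool.Agent.Helper54.OF
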